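import Pool.Agent.H121.FL.Iface

/-! Subtask FL-MOB (helper721 for helper121). -/

set_option autoImplicit false

open scoped BigOperators InnerProductSpace Topology ENNReal
open Filter MeasureTheory

namespace Pool.Agent.H721.FL

open Pool.Agent.Y662.TR
open Pool.Agent.TH369.AN (Rz rz_eq rz_uniq rz_norm)
open Pool.Agent.H987.Z (Rs Gr)
open Pool.Agent.H121.Z987 (HH HH_rs HH_update Gr_im_pos den_ne site)
open Pool.Agent.H121.FL (S_mob)

variable {ι : Type}

/-- the rank one formula for the general matrix element -/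
theorem rank_gen (A A' : LL ι →L[ℂ] LL ι) (hA : IsSelfAdjoint A) (hA' : IsSelfAdjoint A')
    (x0 : ι) (c : ℂ) (h : ∀ u : LL ι, A' u = A u + (c * u x0) • dv x0) (z : ℂ) (hz : z.im ≠ 0)
    (x y : ι) : Gr A' z x y = Gr A z x y - c * Gr A' z x0 y * Gr A z x x0 := by
  obtain ⟨w, hw⟩ : ∃ w, w = Rz A' z (dv y) := ⟨_, rfl⟩
  have h1 : A' w - z • w = dv y := by rw [hw]; exact rz_eq _ hA' z hz _
  have h2 : A w - z • w = dv y - (c * w x0) • dv x0 := by
    rw [← h1, h w]
    abel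
  have h3 := rz_uniq A hA z hz w _ h2
  rw [map_sub, map_smul] at h3
  have h4 : w x = Gr A z x y - c * w x0 * Gr A z x x0 := by
    conv_lhs => rw [h3]
    rfl
  have h5 : ∀ u, Gr A' z u y = w u := by intro u; rw [hw]; rfl
  rw [h5, h5]
  exact h4

theorem mob : S_mob := by
  classical
  intro ι _ T hT lam ω z hlam hz x0 y f hf
  obtain ⟨a, ha⟩ : ∃ a, a = Gr (HH T lam (Function.update ω x0 0)) z x0 x0 := ⟨_, rfl⟩
  obtain ⟨b, hb⟩ : ∃ b, b = Gr (HH T lam (Function.update ω x0 0)) z x0 y := ⟨_, rfl⟩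
  have ha0 : 0 < a.im := by rw [ha]; exact Gr_im_pos _ (HH_rs T hT lam _) z hz x0
  have hane : a ≠ 0 := by
    intro h
    rw [h] at ha0
    simp at ha0
  have hlc : (lam : ℂ) ≠ 0 := by exact_mod_cast hlam.ne'
  obtain ⟨β, hβ⟩ : ∃ β : ℂ, β = -1 / ((lam : ℂ) * a) := ⟨_, rfl⟩
  have hβi : β.im ≠ 0 := by
    intro h
    have h1 : β * ((lam : ℂ) * a) = -1 := by
      rw [hβ]
      field_simp
    have h2 : (β : ℂ) = (β.re : ℂ) := by
      apply Complex.ext
      · simp
      · simp [h]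
    rw [h2] at h1
    have h3 := congrArg Complex.im h1
    simp only [Complex.mul_im, Complex.ofReal_re, Complex.ofReal_im, zero_mul, add_zero,
      Complex.mul_re, sub_zero, Complex.neg_im, Complex.one_im, neg_zero] at h3
    have h4 : β.re = 0 := by
      rcases mul_eq_zero.1 h3 with h4 | h4
      · exact h4
      · exact absurd h4 (mul_pos hlam ha0).ne'
    rw [h4] at h1
    simp at h1
  obtain ⟨g, hg⟩ : ∃ g : ι → ℂ, g = fun x => Gr (HH T lam (Function.update ω x0 0)) z x y :=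
    ⟨_, rfl⟩
  obtain ⟨k, hk⟩ : ∃ k : ι → ℂ, k = fun x => Gr (HH T lam (Function.update ω x0 0)) z x x0 :=
    ⟨_, rfl⟩
  refine ⟨(∑ x ∈ hf.toFinset, (f x : ℂ) * g x) / ((lam : ℂ) * a),
    (∑ x ∈ hf.toFinset, (f x : ℂ) * (g x * a - k x * b)) / a, β, hβi, fun v hv => ?_⟩
  have hne : 1 + (lam : ℂ) * (v : ℂ) * a ≠ 0 := by
    have := den_ne (lam * v) a ha0
    push_cast at this
    exact this
  have hfac : 1 + (lam : ℂ) * (v : ℂ) * a = (lam : ℂ) * a * ((v : ℂ) - β) := by
    rw [hβ]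
    field_simp
    ring
  have hvb : (v : ℂ) - β ≠ 0 := by
    intro h
    rw [hfac, h, mul_zero] at hne
    exact hne rfl
  have hG : ∀ x, Gr (HH T lam (Function.update ω x0 v)) z x y =
      (g x + (lam : ℂ) * (v : ℂ) * (g x * a - k x * b)) / (1 + (lam : ℂ) * (v : ℂ) * a) := by
    intro x
    have h1 := rank_gen _ _ (HH_rs T hT lam (Function.update ω x0 0)).sa
      (HH_rs T hT lam (Function.update ω x0 v)).sa x0 ((lam * v : ℝ) : ℂ)
      (fun u => HH_update T lam ω x0 v hv u) z hz.ne' x y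
    have h2 := site T hT lam ω z hz x0 y v hv
    rw [h2, ← ha, ← hb] at h1
    have e1 : Gr (HH T lam (Function.update ω x0 0)) z x y = g x := by rw [hg]
    have e2 : Gr (HH T lam (Function.update ω x0 0)) z x x0 = k x := by rw [hk]
    rw [e1, e2] at h1
    rw [h1, eq_div_iff hne]
    push_cast
    field_simp
    ring
  have hs : ∑' x, ((f x : ℝ) : ℂ) * Gr (HH T lam (Function.update ω x0 v)) z x y =
      ∑ x ∈ hf.toFinset, ((f x : ℝ) : ℂ) * Gr (HH T lam (Function.update ω x0 v)) z x y := by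
    refine tsum_eq_sum fun x hx => ?_
    have : f x = 0 := by
      by_contra hne
      exact hx (hf.mem_toFinset.2 hne)
    rw [this]
    simp
  rw [hs, Finset.sum_congr rfl fun x _ => by rw [hG x]]
  have h6 : ∀ x, ((f x : ℝ) : ℂ) *
      ((g x + (lam : ℂ) * (v : ℂ) * (g x * a - k x * b)) / (1 + (lam : ℂ) * (v : ℂ) * a)) =
      ((f x : ℂ) * g x + (lam : ℂ) * (v : ℂ) * ((f x : ℂ) * (g x * a - k x * b))) *
        (1 + (lam : ℂ) * (v : ℂ) * a)⁻¹ := by
    intro x
    rw [div_eq_mul_inv]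
    ring
  rw [Finset.sum_congr rfl fun x _ => h6 x, ← Finset.sum_mul, Finset.sum_add_distrib,
    ← Finset.mul_sum, hfac]
  generalize (∑ x ∈ hf.toFinset, (f x : ℂ) * g x) = P
  generalize (∑ x ∈ hf.toFinset, (f x : ℂ) * (g x * a - k x * b)) = Q
  field_simp
  try ring

end Pool.Agent.H721.FL
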